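import Pool.Agent.Y386.AK.BipIn

/-!
# ARC-KAYLES is PSPACE-complete on bipartite graphs
-/

namespace Pool.Agent.Results.MP_0d760e_lc.BipartiteGraphs

open Pool.Agent.NPC Pool.Agent.H623R2.PS
open Pool.Agent.H656R2.AK (FirstWins adjMatrix ArcKayles arcKayles_mem)
open Pool.Agent.Y386.AK

/-- (1) ARC-KAYLES on bipartite graphs, which are given by the list of the sides of the vertices and
by the adjacency matrix, is complete for `PSPACE` under polynomial-time many-one reductions, and it
is in `P` if and only if every language in `PSPACE` is. (2) ARC-KAYLES on all graphs is in `PSPACE`,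
and every language in `PSPACE` has a reduction to it, computable in polynomial time, all of whose
values are adjacency matrices of bipartite graphs. -/
theorem result :
    PSPACEComplete (lang BipArcKayles) ∧
      (InP (lang BipArcKayles) ↔ ∀ L : Set (List Bool), InPSPACE L → InP L) ∧
      InPSPACE (lang ArcKayles) ∧
      ∀ L : Set (List Bool), InPSPACE L → ∃ f : List Bool → List (List Bool),
        PolyTime (fun x => bits (f x)) ∧ ∀ x, ∃ (n : ℕ) (G : SimpleGraph (Fin n)),
          adjMatrix G = f x ∧ G.Colorable 2 ∧ (x ∈ L ↔ FirstWins G Set.univ) := by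
  refine ⟨⟨bip_mem, bip_hard⟩, ⟨fun h L hL => InP.of_reduces (bip_hard L hL) h,
    fun h => h _ bip_mem⟩, arcKayles_mem, fun L hL => ?_⟩
  obtain ⟨f, hf, hf'⟩ := bip_reduction hL
  refine ⟨fun x => (f x).2, polyTime_bits (NPC.Poly.snd hf), fun x => ?_⟩
  obtain ⟨n, G, c, hc, -, h2, h3⟩ := hf' x
  refine ⟨n, G, h2, ?_, h3⟩
  exact (SimpleGraph.Coloring.mk c fun {i j} hij => hc i j hij).colorable

end Pool.Agent.Results.MP_0d760e_lc.BipartiteGraphs
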